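import Pool.Agent.Y443.MSF
import Pool.Agent.Helper292.ForceCH

/-!
R. Pol's question whether countable tightness of `P(S)` implies that all measures on `S` have
metrizable-like support: the answer is consistently negative.
-/

open MeasureTheory Set Topology Filter

namespace Pool.Agent.Results.MP_5a7e2f_gt.NegativeUnderCH

open Pool.Agent.Y443.MS

/-- (1) The continuum hypothesis can be forced (with `ω₁` preserved).
(2) Under the continuum hypothesis the answer to the question is negative, in the literal form of
the problem.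
(3) More generally this holds if there are `ℵ₁` Borel subsets of `[0,1]` of positive measure such
that every Borel subset of positive measure contains one of them (that is, if the cofinality of
the ideal of null sets is `ℵ₁`): then there is a compact Hausdorff space `S` such that `P(S)` has
countable tightness but some regular Borel probability measure on `S` does not have
metrizable-like support. -/
theorem result :
    (∃ (P : Type) (_ : Preorder P), Nonempty P ∧ ∀ p : P,
      p ∈ Pool.Agent.Helper292.ForceCH.OmegaOnePreserved P ∧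
      p ∈ Pool.Agent.Helper292.ForceCH.CHHolds P) ∧
    (Cardinal.continuum.{0} = Cardinal.aleph 1 →
      ¬ ∀ (S : Type) [TopologicalSpace S] [CompactSpace S] [T2Space S] [MeasurableSpace S]
        [BorelSpace S],
        (∀ (A : Set {μ : ProbabilityMeasure S // (μ : Measure S).Regular}) x,
          x ∈ closure A → ∃ B ⊆ A, B.Countable ∧ x ∈ closure B) →
        ∀ μ : Measure S, IsProbabilityMeasure μ → μ.Regular →
          ∃ A : ℕ → Finset (Set S),
            (∀ i, ∀ K ∈ A i, IsCompact K) ∧
            (∀ i, ((A i : Set (Set S))).PairwiseDisjoint id) ∧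
            ∀ U : Set (Set S), (∀ u ∈ U, IsOpen u) → ⋃₀ U = Set.univ →
              ∀ ε : ENNReal, 0 < ε →
                ∃ i, (∀ K ∈ A i, ∃ u ∈ U, K ⊆ u) ∧
                  μ (Set.univ \ ⋃₀ ((A i : Set (Set S)))) < ε) ∧
    ((∃ 𝓗 : Set (Set unitInterval), Cardinal.mk 𝓗 ≤ Cardinal.aleph 1 ∧
        (∀ H ∈ 𝓗, MeasurableSet H ∧ 0 < (volume : Measure unitInterval) H) ∧
        ∀ F : Set unitInterval, MeasurableSet F → 0 < (volume : Measure unitInterval) F →
          ∃ H ∈ 𝓗, H ⊆ F) →
      ∃ (S : Type) (_ : TopologicalSpace S) (_ : CompactSpace S) (_ : T2Space S)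
        (_ : MeasurableSpace S) (_ : BorelSpace S),
        (∀ (A : Set {μ : ProbabilityMeasure S // (μ : Measure S).Regular}) x,
          x ∈ closure A → ∃ B ⊆ A, B.Countable ∧ x ∈ closure B) ∧
        ∃ μ : Measure S, IsProbabilityMeasure μ ∧ μ.Regular ∧
          ¬ ∃ A : ℕ → Finset (Set S),
            (∀ i, ∀ K ∈ A i, IsCompact K) ∧
            (∀ i, ((A i : Set (Set S))).PairwiseDisjoint id) ∧
            ∀ U : Set (Set S), (∀ u ∈ U, IsOpen u) → ⋃₀ U = Set.univ →
              ∀ ε : ENNReal, 0 < ε →
                ∃ i, (∀ K ∈ A i, ∃ u ∈ U, K ⊆ u) ∧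
                  μ (Set.univ \ ⋃₀ ((A i : Set (Set S)))) < ε) := by
  refine ⟨?_, ?_, fun h => counterexample h⟩
  · obtain ⟨P, i, h1, h2⟩ := Pool.Agent.Helper292.ForceCH.exists_forcing
    exact ⟨P, i, h1, fun p => ⟨(h2 p).1, (h2 p).2.2⟩⟩
  · intro hCH h
    obtain ⟨S, i1, i2, i3, i4, i5, ht, μ, hμ1, hμ2, hμ3⟩ :=
      counterexample (smallDense_of_ch hCH)
    exact hμ3 (h S ht μ hμ1 hμ2)

end Pool.Agent.Results.MP_5a7e2f_gt.NegativeUnderCH
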